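import Pool.Agent.U262.SW.F
import Pool.Agent.U262.SW.E

/-!
The half-plane self-avoiding walk on the square grid placed in any direction: the grid is
`u (ℤ + i ℤ)` for a complex number `u ≠ 0`, and the walk starts at `0` and stays in the closed upper
half plane.  All bounds are uniform in `u`.
-/

set_option autoImplicit false

namespace Pool.Agent.Results.MP_df1d0b_pr.AnyDirection

/-- `ω` is an `n`-step self-avoiding walk on `ℤ²` started at the origin. -/
def IsSAW (n : ℕ) (ω : Fin (n + 1) → ℤ × ℤ) : Prop :=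
  ω 0 = (0, 0) ∧
  (∀ i : Fin n, |(ω i.succ).1 - (ω i.castSucc).1| + |(ω i.succ).2 - (ω i.castSucc).2| = 1) ∧
  Function.Injective ω

/-- the vertex `u (p₁ + i p₂)` of the square grid `u (ℤ + i ℤ)` -/
noncomputable def pos (u : ℂ) (p : ℤ × ℤ) : ℂ := u * ((p.1 : ℂ) + (p.2 : ℂ) * Complex.I)

/-- the walk, placed on the grid `u (ℤ + i ℤ)`, stays in the closed upper half plane -/
def InHalf (u : ℂ) (n : ℕ) (ω : Fin (n + 1) → ℤ × ℤ) : Prop := ∀ i, 0 ≤ (pos u (ω i)).im

/-- between its ends the walk, placed on the grid `u (ℤ + i ℤ)`, stays in the open upper half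
plane -/
def InOpen (u : ℂ) (n : ℕ) (ω : Fin (n + 1) → ℤ × ℤ) : Prop :=
  ∀ i, i ≠ 0 → i ≠ Fin.last n → 0 < (pos u (ω i)).im

/-- `c_n`: the number of `n`-step self-avoiding walks from the origin -/
noncomputable def c (n : ℕ) : ℕ := Nat.card {ω : Fin (n + 1) → ℤ × ℤ // IsSAW n ω}

/-- `c_n(x)`: the number of `n`-step self-avoiding walks from the origin to `x` -/
noncomputable def cx (n : ℕ) (x : ℤ × ℤ) : ℕ :=
  Nat.card {ω : Fin (n + 1) → ℤ × ℤ // IsSAW n ω ∧ ω (Fin.last n) = x}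

/-- the number of `n`-step self-avoiding walks from `0` on the grid `u (ℤ + i ℤ)` in the closed
upper half plane -/
noncomputable def h (u : ℂ) (n : ℕ) : ℕ :=
  Nat.card {ω : Fin (n + 1) → ℤ × ℤ // IsSAW n ω ∧ InHalf u n ω}

/-- the number of those that end at `pos u x` -/
noncomputable def hx (u : ℂ) (n : ℕ) (x : ℤ × ℤ) : ℕ :=
  Nat.card {ω : Fin (n + 1) → ℤ × ℤ // IsSAW n ω ∧ ω (Fin.last n) = x ∧ InHalf u n ω}

/-- the number of those that end at `pos u x` and stay in the open upper half plane between their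
ends -/
noncomputable def ho (u : ℂ) (n : ℕ) (x : ℤ × ℤ) : ℕ :=
  Nat.card {ω : Fin (n + 1) → ℤ × ℤ // IsSAW n ω ∧ ω (Fin.last n) = x ∧ InOpen u n ω}

/-- `P_n(ω(n) = x)` for the uniform `n`-step self-avoiding walk in the plane -/
noncomputable def P (n : ℕ) (x : ℤ × ℤ) : ℝ := (cx n x : ℝ) / (c n : ℝ)

/-- `P⁺_n(ω(n) = x)` for the uniform `n`-step self-avoiding walk in the half plane -/
noncomputable def PH (u : ℂ) (n : ℕ) (x : ℤ × ℤ) : ℝ := (hx u n x : ℝ) / (h u n : ℝ)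

theorem im_pos (u : ℂ) (p : ℤ × ℤ) : (pos u p).im = -U262.SW.hh (-u.im) (-u.re) p := by
  unfold pos U262.SW.hh
  simp

theorem c_eq (n : ℕ) : c n = TH795.EP.c n := TH795.EP2.card_walks n

theorem cx_eq (n : ℕ) (x : ℤ × ℤ) : cx n x = TH795.EP.a n x.1 x.2 := TH795.EP2.card_walks_to n x

theorem h_eq (u : ℂ) (n : ℕ) : h u n = U262.SW.hpH (-u.im) (-u.re) n := by
  unfold h U262.SW.hpH
  apply TH795.EP2.ncard_eq n (fun w => U262.SW.LoH (-u.im) (-u.re) w) (fun ω => InHalf u n ω)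
  intro w hw
  rw [U262.SW.loH_iff hw]
  unfold InHalf
  constructor
  · intro g i
    rw [im_pos]
    have := g i
    linarith
  · intro g i
    have := g i
    rw [im_pos] at this
    linarith

theorem hx_eq (u : ℂ) (n : ℕ) (x : ℤ × ℤ) :
    hx u n x = U262.SW.laH (-u.im) (-u.re) n x.1 x.2 := by
  unfold hx U262.SW.laH
  have e : (TH795.EP.fs (fun w => (H981.Saw w ∧ H981.dx w = x.1 ∧ H981.dy w = x.2) ∧
      U262.SW.LoH (-u.im) (-u.re) w) n) = (TH795.EP.fs (fun w => H981.Saw w ∧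
      ((H981.dx w = x.1 ∧ H981.dy w = x.2) ∧ U262.SW.LoH (-u.im) (-u.re) w)) n) := by
    ext w
    rw [TH795.EP.mem_fs, TH795.EP.mem_fs]
    tauto
  rw [e]
  apply TH795.EP2.ncard_eq n (fun w => (H981.dx w = x.1 ∧ H981.dy w = x.2) ∧
    U262.SW.LoH (-u.im) (-u.re) w) (fun ω => ω (Fin.last n) = x ∧ InHalf u n ω)
  intro w hw
  rw [U262.SW.loH_iff hw, TH795.EP2.ew_last n hw]
  unfold InHalf
  constructor
  · rintro ⟨⟨h1, h2⟩, g⟩
    refine ⟨Prod.ext h1 h2, fun i => ?_⟩
    rw [im_pos]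
    have := g i
    linarith
  · rintro ⟨h1, g⟩
    refine ⟨⟨congrArg Prod.fst h1, congrArg Prod.snd h1⟩, fun i => ?_⟩
    have := g i
    rw [im_pos] at this
    linarith

theorem ho_eq (u : ℂ) (n : ℕ) (x : ℤ × ℤ) :
    ho u n x = U262.SW.ssH (-u.im) (-u.re) n x.1 x.2 := by
  unfold ho U262.SW.ssH
  have e : (TH795.EP.fs (fun w => (H981.Saw w ∧ H981.dx w = x.1 ∧ H981.dy w = x.2) ∧
      U262.SW.SsH (-u.im) (-u.re) w) n) = (TH795.EP.fs (fun w => H981.Saw w ∧
      ((H981.dx w = x.1 ∧ H981.dy w = x.2) ∧ U262.SW.SsH (-u.im) (-u.re) w)) n) := by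
    ext w
    rw [TH795.EP.mem_fs, TH795.EP.mem_fs]
    tauto
  rw [e]
  apply TH795.EP2.ncard_eq n (fun w => (H981.dx w = x.1 ∧ H981.dy w = x.2) ∧
    U262.SW.SsH (-u.im) (-u.re) w) (fun ω => ω (Fin.last n) = x ∧ InOpen u n ω)
  intro w hw
  rw [TH795.EP2.ew_last n hw]
  unfold InOpen U262.SW.SsH
  constructor
  · rintro ⟨⟨h1, h2⟩, g⟩
    refine ⟨Prod.ext h1 h2, fun i hi hi' => ?_⟩
    rw [im_pos]
    have hi1 : 0 < (i : ℕ) := by
      by_contra hcon
      exact hi (Fin.ext (by simp only [Fin.val_zero]; omega))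
    have hi2 : (i : ℕ) < w.length := by
      by_contra hcon
      exact hi' (Fin.ext (by simp only [Fin.val_last]; have := i.2; omega))
    have := g i hi1 hi2
    unfold TH795.EP2.ew
    linarith
  · rintro ⟨h1, g⟩
    refine ⟨⟨congrArg Prod.fst h1, congrArg Prod.snd h1⟩, fun k hk hk2 => ?_⟩
    have := g ⟨k, by omega⟩ (by
      intro he
      have := congrArg Fin.val he
      simp only [Fin.val_zero] at this
      omega) (by
      intro he
      have := congrArg Fin.val he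
      simp only [Fin.val_last] at this
      omega)
    rw [im_pos] at this
    unfold TH795.EP2.ew at this
    simp only at this
    linarith

/-- **Theorem.** There are a constant `K` and a convex function `I` on the square `|v₁| + |v₂| ≤ 1`
such that for the square grid `u (ℤ + i ℤ)` in any position (`u ≠ 0` complex) and every `n ≥ 2`:
(1) a fraction of at least `exp (- K (log n)^2)` of the `n`-step self-avoiding walks from `0` stay in
the closed upper half plane;
(2) for every vertex `x ≠ 0` of the closed upper half plane which an `n`-step walk can reach,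
`log P⁺_n(ω(n) = x) = log P_n(ω(n) = x) = - n I(x / n)` up to errors `K (log n)^2`, where `P⁺_n` is
uniform on the half-plane walks and `P_n` on all walks;
(3) if `x` is on the real line and at graph distance less than `n`, a fraction of at least
`exp (- K (log n)^2)` of the half-plane walks to `x` stay in the open upper half plane between
their ends. -/
theorem result : ∃ (K : ℝ) (I : ℝ × ℝ → ℝ), ConvexOn ℝ {v : ℝ × ℝ | |v.1| + |v.2| ≤ 1} I ∧
    ∀ u : ℂ, u ≠ 0 → ∀ n : ℕ, 2 ≤ n →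
    Real.exp (-(K * Real.log n ^ 2)) * c n ≤ h u n ∧
    ∀ x : ℤ × ℤ, x ≠ 0 → 0 ≤ (pos u x).im → (x.1 + x.2 - n) % 2 = 0 → |x.1| + |x.2| ≤ n →
      |Real.log (PH u n x) - Real.log (P n x)| ≤ K * Real.log n ^ 2 ∧
      |Real.log (PH u n x) + n * I ((x.1 : ℝ) / n, (x.2 : ℝ) / n)| ≤ K * Real.log n ^ 2 ∧
      ((pos u x).im = 0 → |x.1| + |x.2| < n →
        Real.exp (-(K * Real.log n ^ 2)) * hx u n x ≤ ho u n x) := by
  obtain ⟨A1, hA1, a1⟩ := U262.SW.half_lawH
  obtain ⟨A2, hA2, a2⟩ := Y981.L2.ldp_words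
  obtain ⟨A3, hA3, a3⟩ := U262.SW.a_le_ssH
  obtain ⟨A4, hA4, a4⟩ := U262.SW.c_le_hpH
  refine ⟨A1 + A2 + A3 + A4, Y981.L2.Rate, Y981.L2.convex_rate, fun u hu n hn => ?_⟩
  have hl : 0 ≤ Real.log (n : ℝ) ^ 2 := by positivity
  have u1 : 0 ≤ A1 * Real.log (n : ℝ) ^ 2 := by positivity
  have u2 : 0 ≤ A2 * Real.log (n : ℝ) ^ 2 := by positivity
  have u3 : 0 ≤ A3 * Real.log (n : ℝ) ^ 2 := by positivity
  have u4 : 0 ≤ A4 * Real.log (n : ℝ) ^ 2 := by positivity
  have hne : -u.im ≠ 0 ∨ -u.re ≠ 0 := by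
    by_contra hcon
    push Not at hcon
    apply hu
    exact Complex.ext (by simpa using hcon.2) (by simpa using hcon.1)
  have hinv : ∀ A B X Y : ℝ, 0 ≤ B → A ≤ B → 0 ≤ Y → X ≤ Real.exp A * Y →
      Real.exp (-B) * X ≤ Y := by
    intro A B X Y _ hAB hY hX
    calc Real.exp (-B) * X ≤ Real.exp (-B) * (Real.exp A * Y) := by gcongr
      _ = Real.exp (A - B) * Y := by rw [← mul_assoc, ← Real.exp_add]; congr 2; ring
      _ ≤ 1 * Y := by
          have : Real.exp (A - B) ≤ 1 := by rw [Real.exp_le_one_iff]; linarith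
          gcongr
      _ = Y := one_mul _
  refine ⟨?_, ?_⟩
  · rw [c_eq, h_eq]
    exact hinv _ _ _ _ (by positivity) (by nlinarith) (Nat.cast_nonneg _) (a4 n hn _ _ hne)
  · intro x hx0 hxi hpar hle
    have hx0' : (x.1, x.2) ≠ ((0, 0) : ℤ × ℤ) := hx0
    rw [im_pos] at hxi
    have hxi' : -u.im * x.1 + -u.re * x.2 ≤ 0 := by
      unfold U262.SW.hh at hxi; linarith
    obtain ⟨-, -, g1⟩ := a1 n hn _ _ hne x.1 x.2 hxi' hx0' hpar hle
    have g2 := a2 n hn x.1 x.2 hx0' hpar hle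
    have e1 : PH u n x =
        (U262.SW.laH (-u.im) (-u.re) n x.1 x.2 : ℝ) / U262.SW.hpH (-u.im) (-u.re) n := by
      unfold PH
      rw [h_eq, hx_eq]
    have e2 : P n x = (TH795.EP.a n x.1 x.2 : ℝ) / TH795.EP.c n := by
      unfold P
      rw [c_eq, cx_eq]
    rw [← e1, ← e2] at g1
    rw [← e2] at g2
    obtain ⟨g4, g5⟩ := abs_le.1 g1
    obtain ⟨g6, g7⟩ := abs_le.1 g2
    refine ⟨?_, ?_, ?_⟩
    · rw [abs_le]
      constructor <;> linarith
    · rw [abs_le]
      constructor <;> linarith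
    · intro him hlt
      rw [im_pos] at him
      have g8 := a3 n hn n le_rfl _ _ hne x.1 x.2 (neg_eq_zero.1 him) hx0' hlt
      rw [ho_eq, hx_eq]
      refine hinv (A3 * Real.log n ^ 2) _ _ _ (by positivity) (by nlinarith) (Nat.cast_nonneg _) ?_
      refine le_trans ?_ g8
      exact_mod_cast U262.SW.laH_le_a _ _ _

end Pool.Agent.Results.MP_df1d0b_pr.AnyDirection
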