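import Pool.Agent.U443.GL.Cls
import Pool.Agent.U443.GL.Z2
import Pool.Agent.U954.TA.Half

/-!
# Local limits of the half-plane self-avoiding walk

The uniform self-avoiding walk with `n` steps from `0` in the closed upper half-plane of the square
lattice looks near all its pieces with at least a constant times `(log n)²` steps, wherever they are,
like a stationary random two-sided infinite self-avoiding walk of the full plane which satisfies the
Dobrushin-Lanford-Ruelle equations with the critical weight `(1 / μ) ^ (number of edges)`.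

Definitions (`Pool.Agent.U443.LG.*`, `Pool.Agent.U443.OS.*`, `Pool.Agent.U443.GL.*`), for the square
lattice `sqG` with neighbours `|x - x'| + |y - y'| = 1` and all translations:
* `WL sqG n`: the self-avoiding walks `l` from `0` with `n` steps, as lists of vertices;
* `Cfg`: configurations `η` of open edges; `Cyl R S`: in the finite window `R` exactly the edges of
  `S` are open; `Vis sqG x η`: the vertex `x` is on an open edge;
* `Line sqG η`: the open edges of `η` are the edges `γ i, γ (i + 1)`, `i ∈ ℤ`, of one two-sided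
  infinite self-avoiding walk `γ : ℤ → ℤ × ℤ` of the lattice with `γ 0 = 0`;
* `Inf sqG x κ P`: `P` is a probability measure on the configurations; `Line sqG η` almost surely
  (`line`); the DLR equations `Dlr sqG x P` (`dlr`): for all states `A, A' ⊆ Λ` of a finite window
  `Λ` and all measurable events `C` which do not depend on the edges in `Λ` and on which both states
  give a configuration with `Line`, `P(state A, C) / x ^ |A| = P(state A', C) / x ^ |A'|`; `P` is
  stationary as the law of a configuration seen from one of its vertices (`stat`: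
  `P(g visited, η ∈ D) = P(-g visited, mv g η ∈ D)` for all `g`); and for a vertex `y` at graph
  distance at most `d` (`Within`) of `0`, the event `Far sqG y m` that `y` is visited and not joined
  to `0` by at most `m` open edges has probability at most `κ d m` (`far`);
* `kap K d m = K ^ (d + 1) (log m)² / m`;
* `vw l x`: the configuration of the edges of the walk `l`, translated by `-x`;
* `empIn sqG l β`: the law of the walk `l` (set of its edges) seen from a uniformly chosen vertex
  `x` of its piece `β` (translated by `-x`), `emp sqG l = empIn sqG l l`; `CloseIn sqG x κ ε R l β`: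
  for some `P` with `Inf sqG x κ P` all states of the window `R` have the same probability under
  `empIn sqG l β` as under `P` up to `ε`;
* `TypG sqG x κ ε R m l`: this is so for all pieces `β` (blocks of consecutive vertices) of `l` with
  at least `m` steps.
-/

set_option autoImplicit false

namespace Pool.Agent.Results.MP_df1d0b_pr.HalfPlaneLimits

open Filter Topology MeasureTheory U443.LG U443.OS U443.GL
open scoped Classical

/-- the `n`-step self-avoiding walks from `0` in the closed upper half-plane -/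
noncomputable def HL (n : ℕ) : Finset (List (ℤ × ℤ)) :=
  (WL sqG n).filter (fun l => ∀ v ∈ l, 0 ≤ v.2)

theorem HL_ncard (n : ℕ) : (HL n).card = Set.ncard {f : Fin (n + 1) → ℤ × ℤ |
    f 0 = 0 ∧ Function.Injective f ∧
    (∀ i : Fin n, |(f i.succ).1 - (f i.castSucc).1| + |(f i.succ).2 - (f i.castSucc).2| = 1) ∧
    ∀ i, 0 ≤ (f i).2} := by
  rw [← Set.ncard_image_of_injective _ List.ofFn_injective, ← Set.ncard_coe_finset]
  congr 1
  ext w
  unfold HL
  rw [Finset.mem_coe, Finset.mem_filter, mem_WL, Set.mem_image]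
  have key : ∀ f : Fin (n + 1) → ℤ × ℤ, (Walk sqG.Adj 0 (List.ofFn f) ∧
      ∀ v ∈ List.ofFn f, 0 ≤ v.2) ↔ f 0 = 0 ∧ Function.Injective f ∧
      (∀ i : Fin n, |(f i.succ).1 - (f i.castSucc).1| + |(f i.succ).2 - (f i.castSucc).2| = 1) ∧
      ∀ i, 0 ≤ (f i).2 := by
    intro f
    unfold Walk
    rw [List.nodup_ofFn, List.isChain_ofFn, and_assoc, and_assoc]
    refine and_congr ?_ (and_congr Iff.rfl (and_congr ?_ ?_))
    · rw [List.ofFn_succ]
      simp
    · constructor
      · intro h i
        exact h i.1 (by have := i.2; omega)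
      · intro h i hi
        exact h ⟨i, by omega⟩
    · simp only [List.mem_ofFn, forall_exists_index, forall_apply_eq_imp_iff]
  constructor
  · rintro ⟨⟨h2, h1⟩, h3⟩
    have e : List.ofFn (fun i : Fin (n + 1) => w[i.1]'(by rw [h1]; exact i.2)) = w := by
      apply List.ext_getElem
      · simp [h1]
      · intro i hi hi'
        rw [List.getElem_ofFn]
    exact ⟨_, (key (fun i : Fin (n + 1) => w[i.1]'(by rw [h1]; exact i.2))).1
      (by rw [e]; exact ⟨h2, h3⟩), e⟩
  · rintro ⟨f, hf, rfl⟩
    have h := (key f).2 hf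
    exact ⟨⟨h.1, by simp⟩, h.2⟩

theorem HL_low : ∃ K : ℝ, 0 ≤ K ∧ ∀ n : ℕ, 2 ≤ n →
    H981.mu ^ n ≤ Real.exp (K * Real.log n ^ 2) * (HL n).card := by
  obtain ⟨K', hK', hl⟩ := Pool.Agent.TH546.L2.sq_lower2
  refine ⟨K', hK', fun n hn => ?_⟩
  have h2 := hl n hn
  rw [H981.br'_eq] at h2
  have h3 : (H981.B n : ℝ) ≤ (HL n).card := by
    have h4 := Pool.Agent.U954.TA.bridge_le n
    rw [← Pool.Agent.H976R2.ncard_saw_filter n Pool.Agent.U954.TA.Up] at h4
    have e : {ω | Pool.Agent.H976R2.IsSAW n ω ∧ Pool.Agent.U954.TA.Up ω} =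
        {f : Fin (n + 1) → ℤ × ℤ | f 0 = 0 ∧ Function.Injective f ∧
        (∀ i : Fin n, |(f i.succ).1 - (f i.castSucc).1| + |(f i.succ).2 - (f i.castSucc).2| = 1) ∧
        ∀ i, 0 ≤ (f i).2} := by
      ext f
      constructor
      · rintro ⟨⟨g1, g2, g3⟩, g4⟩
        exact ⟨g1, g3, g2, g4⟩
      · rintro ⟨g1, g2, g3, g4⟩
        exact ⟨⟨g1, g3, g2⟩, g4⟩
    rw [e, ← HL_ncard] at h4
    exact_mod_cast h4
  have h5 := mul_le_mul_of_nonneg_left (h2.trans h3) (Real.exp_pos (K' * Real.log n ^ 2)).le
  refine le_trans (le_of_eq ?_) h5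
  rw [mul_left_comm, ← Real.exp_add, add_neg_cancel, Real.exp_zero, mul_one]

/-- **Theorem.** On the square lattice let `μ` be the connective constant, the limit of
`c_n ^ (1 / n)` for the number `c_n = |WL sqG n|` of `n`-step self-avoiding walks, and let `μ_n` be
the uniform law on the `n`-step self-avoiding walks from `0` in the closed upper half-plane. There is
`K` such that for every finite window `R` and every `ε > 0`:
(1) There are `c > 0` and `C` such that for all `n ≥ 2` and `m ≥ C (log n)²`, with `μ_n`-probability at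
least `1 - e^(-cm)`, for every piece of the walk with at least `m` steps there is a measure `P` with
`Inf sqG (1 / μ) (kap K) P` such that the walk, seen from a uniform vertex of the piece, shows every
state of `R` with the probability it has under `P`, up to `ε`.
(2) There are `δ > 0` and `n₀` such that for all `n ≥ n₀` and all events `Q` with
`μ_n(Q) ≥ e^(-δn)` there is such a measure `P` such that under `μ_n` given `Q` the walk, seen from
one of its vertices chosen uniformly, shows every state of `R` with the probability it has under `P`,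
up to `ε`. -/
theorem result :
    (∀ n : ℕ, (HL n).card = Set.ncard {f : Fin (n + 1) → ℤ × ℤ |
      f 0 = 0 ∧ Function.Injective f ∧
      (∀ i : Fin n, |(f i.succ).1 - (f i.castSucc).1| + |(f i.succ).2 - (f i.castSucc).2| = 1) ∧
      ∀ i, 0 ≤ (f i).2}) ∧
    ∃ μ : ℝ, 1 ≤ μ ∧
    Tendsto (fun n : ℕ => ((WL sqG n).card : ℝ) ^ (1 / (n : ℝ))) atTop (𝓝 μ) ∧
    ∃ K : ℕ, 1 ≤ K ∧ ∀ (R : Finset (Sym2 (ℤ × ℤ))) (ε : ℝ), 0 < ε →
    -- (1)
    (∃ c C : ℝ, 0 < c ∧ ∀ n : ℕ, 2 ≤ n → ∀ m : ℕ, C * Real.log n ^ 2 ≤ m →
      (((HL n).filter (fun l => ¬ TypG sqG (1 / μ) (kap K) ε R m l)).card : ℝ) ≤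
        Real.exp (-(c * m)) * (HL n).card) ∧
    -- (2)
    ∃ δ : ℝ, 0 < δ ∧ ∃ n₀ : ℕ, ∀ n : ℕ, n₀ ≤ n → ∀ Q : List (ℤ × ℤ) → Prop,
      Real.exp (-(δ * n)) * (HL n).card ≤ ((HL n).filter Q).card →
      ∃ P : Measure (Cfg (ℤ × ℤ)), Inf sqG (1 / μ) (kap K) P ∧ ∀ S, S ⊆ R →
        |(∑ l ∈ (HL n).filter Q, (emp sqG l).real (Cyl R S)) / ((HL n).filter Q).card -
          P.real (Cyl R S)| ≤ ε := by
  refine ⟨HL_ncard, H981.mu, H981.one_le_mu, z2_tendsto, ?_⟩
  obtain ⟨K, hK1, hth⟩ := thin lat2
  obtain ⟨K', hK', hlo⟩ := HL_low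
  have hsub : ∀ n, HL n ⊆ WL sqG n := fun n => Finset.filter_subset _ _
  have hne : ∀ n, 2 ≤ n → (HL n).Nonempty := by
    intro n hn
    have h1 := hlo n hn
    have h2 := H981.mu_pos
    have h3 : 0 < Real.exp (K' * Real.log n ^ 2) * ((HL n).card : ℝ) :=
      lt_of_lt_of_le (by positivity) h1
    have h4 : (0 : ℝ) < (HL n).card := (pos_iff_pos_of_mul_pos h3).1 (Real.exp_pos _)
    rw [← Finset.card_pos]
    exact_mod_cast h4
  refine ⟨K, hK1, fun R ε hε => ⟨?_, ?_⟩⟩
  · obtain ⟨c, C, hc, h⟩ := class_pieces hth R hε hsub hK' hlo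
    exact ⟨c, C, hc, fun n hn m hm => by convert h n hn m hm⟩
  · obtain ⟨d, hd, n0, h⟩ := class_law (R := R) hε hsub hne
      (class_pieces hth R (half_pos hε) hsub hK' hlo)
    exact ⟨d, hd, n0, fun n hn Q hQ => h n hn Q hQ⟩

end Pool.Agent.Results.MP_df1d0b_pr.HalfPlaneLimits
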