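import Pool.Agent.U126.QP.All
import Pool.Agent.TH546.L2.Fin2
import Pool.Agent.W840.CT.Pair

/-! # The half-plane self-avoiding walk is seldom close to the boundary, at all heights -/

set_option autoImplicit false

namespace Pool.Agent.Results.MP_df1d0b_pr.NearBoundaryLog

/-- `ω` is an `n`-step self-avoiding walk on `ℤ²` from the origin. -/
def IsSAW (n : ℕ) (ω : Fin (n + 1) → ℤ × ℤ) : Prop :=
  ω 0 = (0, 0) ∧
  (∀ i : Fin n, |(ω i.succ).1 - (ω i.castSucc).1| + |(ω i.succ).2 - (ω i.castSucc).2| = 1) ∧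
  Function.Injective ω

/-- the `n`-step self-avoiding walks on `ℤ²` from the origin which stay in the closed upper
half-plane -/
def halfWalks (n : ℕ) : Set (Fin (n + 1) → ℤ × ℤ) := {ω | IsSAW n ω ∧ ∀ i, 0 ≤ (ω i).2}

/-- the number of times at which the height of the walk is at most `r` -/
noncomputable def low {n : ℕ} (r : ℕ) (ω : Fin (n + 1) → ℤ × ℤ) : ℕ :=
  Nat.card {i : Fin (n + 1) // (ω i).2 ≤ (r : ℤ)}

/-- the probability of an event under the uniform probability measure on the `n`-step half-plane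
walks -/
noncomputable def prob (n : ℕ) (P : (Fin (n + 1) → ℤ × ℤ) → Prop) : ℝ :=
  (({ω | ω ∈ halfWalks n ∧ P ω} : Set (Fin (n + 1) → ℤ × ℤ)).ncard : ℝ) / (halfWalks n).ncard

open Pool.Agent.W840.CT Pool.Agent.U126.NC in
theorem low_le {n : ℕ} (r : ℕ) {ω : Fin (n + 1) → ℤ × ℤ} (h : SW n ω) (h0 : ∀ i, 0 ≤ (ω i).2) :
    low r ω ≤ (VV {p | p.2 = -1} (r + 1) (li ω)).card := by
  classical
  unfold low
  rw [Nat.card_eq_fintype_card, Fintype.card_subtype]
  refine Finset.card_le_card_of_injOn ω ?_ (fun i _ j _ hij => h.2.2 hij)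
  intro i hi
  simp only [Finset.coe_filter, Finset.mem_univ, true_and, Set.mem_ofPred_eq] at hi
  unfold VV
  rw [Finset.mem_coe, Finset.mem_filter, List.mem_toFinset]
  refine ⟨?_, ((ω i).1, -1), rfl, ?_⟩
  · unfold li
    rw [List.mem_map]
    exact ⟨i.1, List.mem_range.2 i.2, ex_val ω i⟩
  · unfold nr
    have := h0 i
    simp only [sub_self, abs_zero, zero_add]
    rw [abs_le]
    push_cast
    omega

open Pool.Agent.W840.CT in
theorem half_finite (n : ℕ) : (halfWalks n).Finite :=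
  (SW_finite n).subset (fun _ hω => hω.1)

/-- there are at least as many half-plane walks as bridges -/
theorem B_le (n : ℕ) : H981.B n ≤ (halfWalks n).ncard := by
  rw [← Nat.card_coe_set_eq]
  have : Finite (halfWalks n) := (half_finite n).to_subtype
  have hcomm : ∀ a b : ℤ, |b| + |a| = |a| + |b| := fun a b => add_comm _ _
  refine Nat.card_le_card_of_injective
    (fun q => (⟨fun i => ((q.1 i).2, (q.1 i).1), ?_⟩ : halfWalks n)) ?_
  · obtain ⟨ω, hω⟩ := q
    obtain ⟨⟨h0, h1, h2⟩, h3⟩ := hω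
    refine ⟨⟨?_, ?_, ?_⟩, ?_⟩
    · simp only [h0]
    · intro i
      have := h1 i
      simp only
      rw [add_comm]
      exact this
    · intro i j hij
      simp only [Prod.mk.injEq] at hij
      exact h2 (Prod.ext hij.2 hij.1)
    · intro i
      rcases eq_or_ne i 0 with hi | hi
      · subst hi
        simp only [h0, le_refl]
      · exact (h3 i hi).1.le
  · intro q q' hq
    apply Subtype.ext
    funext i
    have h := congrFun (congrArg Subtype.val hq) i
    simp only [Prod.mk.injEq] at h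
    exact Prod.ext h.2 h.1

open Pool.Agent.W840.CT Pool.Agent.U126.NC in
/-- one height -/
theorem one : ∃ K : ℝ, 0 < K ∧ ∀ r n : ℕ, 2 ≤ n → ∀ x : ℝ, 0 ≤ x →
    prob n (fun ω => Real.exp (K * Real.log (r + 2) ^ 3) * (Real.log n ^ 2 + x) <
      (low r ω : ℝ)) ≤ Real.exp (-x) := by
  obtain ⟨K₁, hK₁, h1⟩ := Pool.Agent.TH546.L2.sq_upper2
  obtain ⟨K₂, hK₂, h2⟩ := Pool.Agent.TH546.L2.sq_lower2
  obtain ⟨K7, hK7, h7⟩ := Pool.Agent.U126.QP.fin Pool.Agent.U126.QP.all
  have hC1 : (1 : ℝ) ≤ K₁ + K₂ + 5 := by linarith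
  have hC0 : 0 ≤ Real.log (K₁ + K₂ + 5) := Real.log_nonneg hC1
  refine ⟨K7 + 20 * Real.log (K₁ + K₂ + 5), by linarith, fun r n hn x hx => ?_⟩
  set C : ℝ := K₁ + K₂ + 5 with hC
  obtain ⟨D, hD1, hD2, hD3⟩ := h7 (r + 1) (by omega)
  set F : ℝ := Real.exp ((K7 + 20 * Real.log C) * Real.log (r + 2) ^ 3) with hF
  have hDF : C * (D : ℝ) ≤ F := by
    have e0 : (D : ℝ) ≤ (((2 * (r + 1) + 1) ^ 2 * D : ℕ) : ℝ) := by
      exact_mod_cast Nat.le_mul_of_pos_left D (by positivity)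
    have e1 := Pool.Agent.U126.QP.absorb (K := K7) hC1 (k := r + 1) (by omega)
    have e2 : Pool.Agent.U126.QP.lg (r + 1) = Real.log (r + 2) ^ 3 := by
      unfold Pool.Agent.U126.QP.lg
      push_cast
      congr 2
      ring
    rw [e2] at e1 hD3
    exact (mul_le_mul_of_nonneg_left (e0.trans hD3) (by linarith)).trans e1
  set L := Real.log n with hL
  have hmu := H981.mu_pos
  have hn' : (2 : ℝ) ≤ n := by exact_mod_cast hn
  have hlog : (0.69 : ℝ) < L := by
    have h3 := Real.log_two_gt_d9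
    have h4 : Real.log 2 ≤ L := Real.log_le_log (by norm_num) hn'
    linarith
  have hL2 : (0.47 : ℝ) ≤ L ^ 2 := by nlinarith
  -- the number of walks against the number of half-plane walks
  have hB : (cn n : ℝ) ≤ Real.exp ((K₁ + K₂) * L ^ 2) * ((halfWalks n).ncard : ℝ) := by
    have e1 := h1 n hn
    have e2 := h2 n hn
    rw [← cn_eq] at e1
    have e3 : (H981.br' n : ℝ) ≤ ((halfWalks n).ncard : ℝ) := by
      rw [H981.br'_eq]
      exact_mod_cast B_le n
    calc (cn n : ℝ) ≤ H981.mu ^ n * Real.exp (K₁ * L ^ 2) := e1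
      _ = Real.exp ((K₁ + K₂) * L ^ 2) * (H981.mu ^ n * Real.exp (-(K₂ * L ^ 2))) := by
          rw [mul_left_comm, ← Real.exp_add]
          congr 2
          ring
      _ ≤ _ := by
          gcongr
          exact e2.trans e3
  have hcn : (0 : ℝ) < cn n := lt_of_lt_of_le one_pos (cn_pos n)
  have hhalf : (0 : ℝ) < ((halfWalks n).ncard : ℝ) := by
    by_contra hcon
    have h0 : ((halfWalks n).ncard : ℝ) = 0 := le_antisymm (not_lt.1 hcon) (Nat.cast_nonneg _)
    rw [h0, mul_zero] at hB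
    linarith
  set y := x + (K₁ + K₂) * L ^ 2 with hy
  set s := ⌈y⌉₊ with hs
  have hy0 : 0 ≤ y := by positivity
  have hs1 : (s : ℝ) ≤ y + 1 := (Nat.ceil_lt_add_one hy0).le
  have hs2 : y ≤ s := Nat.le_ceil _
  have hA : ∀ u ∈ ({p | p.2 = -1} : Set Pt), far u → ∃ u' ∈ ({p | p.2 = -1} : Set Pt),
      adj u u' := by
    intro u hu _
    refine ⟨(u.1 + 1, u.2), hu, ?_⟩
    unfold adj
    simp
  have h3 := hD2 {p | p.2 = -1} hA n s
  set Q : Set (List Pt) := {B | B ∈ LS n ∧ (∀ v ∈ B, v ∈ ({p | p.2 = -1} : Set Pt) → v = 0) ∧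
      D * (s + 1) ≤ (VV {p | p.2 = -1} (r + 1) B).card} with hQ
  have hth : ((D * (s + 1) : ℕ) : ℝ) ≤ F * (L ^ 2 + x) := by
    have e3 : (s : ℝ) + 1 ≤ C * (L ^ 2 + x) := by
      have : 0 ≤ (K₁ + K₂) * x := by positivity
      have e4 : C * (L ^ 2 + x) = (K₁ + K₂) * L ^ 2 + (K₁ + K₂) * x + 5 * L ^ 2 + 5 * x := by
        rw [hC]; ring
      rw [e4]
      linarith
    push_cast
    calc (D : ℝ) * (s + 1) ≤ D * (C * (L ^ 2 + x)) :=
          mul_le_mul_of_nonneg_left e3 (Nat.cast_nonneg _)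
      _ = C * D * (L ^ 2 + x) := by ring
      _ ≤ F * (L ^ 2 + x) := mul_le_mul_of_nonneg_right hDF (by positivity)
  have hle : ({ω | ω ∈ halfWalks n ∧
      F * (L ^ 2 + x) < (low r ω : ℝ)} :
      Set (Fin (n + 1) → ℤ × ℤ)).ncard ≤ Q.ncard := by
    refine Set.ncard_le_ncard_of_injOn li ?_ (fun ω _ ω' _ h => li_inj h)
      ((LS_finite n).subset (fun B hB => hB.1))
    rintro ω ⟨⟨g1, g2⟩, g3⟩
    refine ⟨li_mem g1, ?_, ?_⟩
    · intro v hv hv1
      exfalso
      unfold li at hv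
      rw [List.mem_map] at hv
      obtain ⟨i, hi, rfl⟩ := hv
      rw [List.mem_range] at hi
      have e1 := ex_val ω ⟨i, hi⟩
      simp only at e1
      rw [e1] at hv1
      have e2 := g2 ⟨i, hi⟩
      have e3 : (ω ⟨i, hi⟩).2 = -1 := hv1
      omega
    · have e1 := low_le r g1 g2
      have e2 : ((D * (s + 1) : ℕ) : ℝ) ≤ (low r ω : ℝ) :=
        hth.trans g3.le
      exact (Nat.cast_le.1 e2).trans e1
  have h4 : (4 : ℝ) ^ s * (Q.ncard : ℝ) ≤ cn n := by
    exact_mod_cast h3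
  have h5 : Real.exp y ≤ (4 : ℝ) ^ s := by
    calc Real.exp y ≤ Real.exp s := Real.exp_le_exp.2 hs2
      _ = Real.exp 1 ^ s := by rw [← Real.exp_nat_mul, mul_one]
      _ ≤ 4 ^ s := by
          refine pow_le_pow_left₀ (Real.exp_pos _).le ?_ s
          have := Real.exp_one_lt_d9
          linarith
  have hX0 : (0 : ℝ) ≤ Q.ncard := Nat.cast_nonneg _
  have h6 : Real.exp y * (Q.ncard : ℝ) ≤ Real.exp ((K₁ + K₂) * L ^ 2) * ((halfWalks n).ncard : ℝ) :=
    ((mul_le_mul_of_nonneg_right h5 hX0).trans h4).trans hB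
  unfold prob
  rw [div_le_iff₀ hhalf]
  calc (({ω | ω ∈ halfWalks n ∧ F * (L ^ 2 + x) < (low r ω : ℝ)} :
      Set (Fin (n + 1) → ℤ × ℤ)).ncard : ℝ) ≤ (Q.ncard : ℝ) := Nat.cast_le.2 hle
    _ = Real.exp (-y) * (Real.exp y * (Q.ncard : ℝ)) := by
        rw [← mul_assoc, ← Real.exp_add, neg_add_cancel, Real.exp_zero, one_mul]
    _ ≤ Real.exp (-y) * (Real.exp ((K₁ + K₂) * L ^ 2) * ((halfWalks n).ncard : ℝ)) :=
        mul_le_mul_of_nonneg_left h6 (Real.exp_pos _).le
    _ = Real.exp (-x) * ((halfWalks n).ncard : ℝ) := by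
        rw [← mul_assoc, ← Real.exp_add]
        congr 2
        rw [hy]
        ring

/-- **The half-plane walk is seldom close to the boundary, at all heights.** There is one constant
`K` such that for all `n ≥ 2` and all `x ≥ 0`: for the uniform self-avoiding walk with `n` steps on
`ℤ²` which starts at the origin and stays in the closed upper half-plane, with probability at least
`1 - e^{-x}`, for all heights `r ≥ 0` at once, the number of times at which the height of the walk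
is at most `r` is at most `exp (K (log (r + 2))³) ((log n)² + x)`. -/
theorem result : ∃ K : ℝ, 0 < K ∧ ∀ n : ℕ, 2 ≤ n → ∀ x : ℝ, 0 ≤ x →
    prob n (fun ω => ∃ r : ℕ, Real.exp (K * Real.log (r + 2) ^ 3) * (Real.log n ^ 2 + x) <
      (low r ω : ℝ)) ≤ Real.exp (-x) := by
  obtain ⟨K, hK, h⟩ := one
  refine ⟨K + 100, by linarith, fun n hn x hx => ?_⟩
  have hlog : (0.69 : ℝ) < Real.log n := Pool.Agent.TH546.SG.log_ge hn
  have hq : (0.47 : ℝ) ≤ Real.log n ^ 2 + x := by nlinarith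
  have hlr : ∀ k : ℕ, 0 ≤ Real.log ((k : ℝ) + 1) := fun r => by
    refine Real.log_nonneg ?_
    have : (0 : ℝ) ≤ r := Nat.cast_nonneg r
    linarith
  set E : ℕ → Set (Fin (n + 1) → ℤ × ℤ) := fun k =>
    {ω | ω ∈ halfWalks n ∧ 1 ≤ k ∧ Real.exp (K * Real.log (k + 1) ^ 3) *
      (Real.log n ^ 2 + (x + 2 * Real.log (k + 1))) < (low (k - 1) ω : ℝ)} with hE
  have hb : ∀ k : ℕ, 1 ≤ k →
      ((E k).ncard : ℝ) ≤ (Real.exp (-x) * (halfWalks n).ncard) / ((k : ℝ) + 1) ^ 2 := by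
    intro k hk
    obtain ⟨r, rfl⟩ : ∃ r, k = r + 1 := ⟨k - 1, by omega⟩
    have h1 := h r n hn (x + 2 * Real.log (((r + 1 : ℕ) : ℝ) + 1))
      (by have := hlr (r + 1); linarith)
    have e0 : ((r + 1 : ℕ) : ℝ) + 1 = r + 2 := by push_cast; ring
    rcases Nat.eq_zero_or_pos (halfWalks n).ncard with h0 | h0
    · have h2 : (E (r + 1)).ncard ≤ (halfWalks n).ncard :=
        Set.ncard_le_ncard (fun ω hω => hω.1) (half_finite n)
      rw [h0] at h2
      have h3 : (E (r + 1)).ncard = 0 := by omega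
      rw [h3, h0]
      simp
    unfold prob at h1
    rw [div_le_iff₀ (by exact_mod_cast h0)] at h1
    refine le_trans ?_ (h1.trans (le_of_eq ?_))
    · have hs : E (r + 1) ⊆ {ω | ω ∈ halfWalks n ∧ Real.exp (K * Real.log (r + 2) ^ 3) *
          (Real.log n ^ 2 + (x + 2 * Real.log (((r + 1 : ℕ) : ℝ) + 1))) < (low r ω : ℝ)} := by
        rintro ω ⟨g1, -, g2⟩
        refine ⟨g1, ?_⟩
        rw [e0] at g2 ⊢
        exact g2
      have hle := Set.ncard_le_ncard hs ((half_finite n).subset (fun ω hω => hω.1))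
      exact (Nat.cast_le (α := ℝ)).2 hle
    · have hr1 : (0 : ℝ) < ((r + 1 : ℕ) : ℝ) + 1 := by positivity
      have e1 : Real.exp (-(x + 2 * Real.log (((r + 1 : ℕ) : ℝ) + 1))) =
          Real.exp (-x) / (((r + 1 : ℕ) : ℝ) + 1) ^ 2 := by
        rw [neg_add, Real.exp_add, div_eq_mul_inv, Real.exp_neg (2 * _), two_mul, Real.exp_add,
          Real.exp_log hr1, sq]
      rw [e1]
      ring
  have hU := Pool.Agent.U126.QP.union_le (half_finite n) E (fun r ω hω => hω.1)
    (by positivity) hb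
  have hsub : ({ω | ω ∈ halfWalks n ∧ ∃ r : ℕ, Real.exp ((K + 100) * Real.log (r + 2) ^ 3) *
      (Real.log n ^ 2 + x) < (low r ω : ℝ)} : Set (Fin (n + 1) → ℤ × ℤ)) ⊆
      {ω | ∃ k, 1 ≤ k ∧ ω ∈ E k} := by
    rintro ω ⟨g1, r, g2⟩
    refine ⟨r + 1, by omega, g1, by omega, lt_of_le_of_lt ?_ g2⟩
    have e0 : ((r + 1 : ℕ) : ℝ) + 1 = r + 2 := by push_cast; ring
    have e2 := Pool.Agent.U126.QP.log_abs (k := r + 1) (by omega)
    unfold Pool.Agent.U126.QP.lg at e2
    have e3 := hlr (r + 1)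
    rw [e0] at e2 e3 ⊢
    have e5 : Real.exp ((K + 100) * Real.log (r + 2) ^ 3) =
        Real.exp (K * Real.log (r + 2) ^ 3) * Real.exp (100 * Real.log (r + 2) ^ 3) := by
      rw [← Real.exp_add]
      ring_nf
    rw [e5, mul_assoc]
    refine mul_le_mul_of_nonneg_left ?_ (Real.exp_pos _).le
    calc Real.log n ^ 2 + (x + 2 * Real.log (r + 2)) ≤
          (1 + 5 * Real.log (r + 2)) * (Real.log n ^ 2 + x) := by nlinarith
      _ ≤ _ := mul_le_mul_of_nonneg_right e2 (by linarith)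
  have hfin : ({ω | ∃ k, 1 ≤ k ∧ ω ∈ E k} : Set (Fin (n + 1) → ℤ × ℤ)).Finite :=
    (half_finite n).subset (fun ω hω => by obtain ⟨r, _, h1, _⟩ := hω; exact h1)
  have hle := (Nat.cast_le (α := ℝ)).2 (Set.ncard_le_ncard hsub hfin)
  have h9 := hle.trans hU
  unfold prob
  rcases Nat.eq_zero_or_pos (halfWalks n).ncard with h0 | h0
  · rw [h0]
    simp only [CharP.cast_eq_zero, div_zero]
    positivity
  · rw [div_le_iff₀ (by exact_mod_cast h0)]
    exact h9

end Pool.Agent.Results.MP_df1d0b_pr.NearBoundaryLog
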