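import Pool.Agent.U198.AC.MxP

/-!
# Half-plane self-avoiding walks: analytic continuation of the generating functions, with weights
which depend on the initial piece and on the final piece of the walk
-/

set_option autoImplicit false

namespace Pool.Agent.Results.MP_df1d0b_pr.PiecesContinuation

open Filter Topology
open scoped Classical

/-- the three grids -/
inductive Grid
  | square
  | triangular
  | hexagonal

/-- Adjacency of the grids, in coordinates on `ℤ × ℤ` (brick wall for the hexagonal grid). -/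
def Grid.Adj : Grid → ℤ × ℤ → ℤ × ℤ → Prop
  | .square, p, q => |p.1 - q.1| + |p.2 - q.2| = 1
  | .triangular, p, q =>
    q - p ∈ ({(1, 0), (-1, 0), (0, 1), (0, -1), (1, -1), (-1, 1)} : Set (ℤ × ℤ))
  | .hexagonal, p, q => q - p = (1, 0) ∨ q - p = (-1, 0) ∨ (q - p = (0, 1) ∧ Even (p.1 + p.2)) ∨
    (q - p = (0, -1) ∧ Even (q.1 + q.2))

/-- The points of the plane: with these points the edges have length one. -/
noncomputable def Grid.pt : Grid → ℤ × ℤ → ℂ
  | .square, p => ⟨(p.2 : ℝ), (p.1 : ℝ)⟩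
  | .triangular, p => ⟨((p.1 : ℝ) - (p.2 : ℝ)) / 2, √3 / 2 * ((p.1 : ℝ) + (p.2 : ℝ))⟩
  | .hexagonal, p => ⟨(3 * (p.2 : ℝ) - (((p.1 + p.2) % 2 : ℤ) : ℝ)) / 2, √3 / 2 * (p.1 : ℝ)⟩

/-- the vertices in the closed upper half-plane -/
def Grid.Half (G : Grid) (p : ℤ × ℤ) : Prop := 0 ≤ (G.pt p).im

/-- `1` for the triangular grid, `2` for the two bipartite grids -/
def Grid.s : Grid → ℕ
  | .square => 2
  | .triangular => 1
  | .hexagonal => 2

/-- the `n`-step self-avoiding walks from the origin in the set `D` of vertices -/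
def walks (G : Grid) (D : ℤ × ℤ → Prop) (n : ℕ) : Set (Fin (n + 1) → ℤ × ℤ) :=
  {γ | γ 0 = 0 ∧ Function.Injective γ ∧ (∀ i : Fin n, G.Adj (γ i.castSucc) (γ i.succ)) ∧
    ∀ i, D (γ i)}

/-- The sum over the `n`-step walks `γ` in `D` of `φ (γ 0, …, γ k) (γ n, γ (n-1), …, γ (n-m))` (the
indices are cut off at `n` and at `0` if the walk is shorter). If `φ` is the indicator function of
`{(γ 0, …, γ k) = η}` this is the number of walks in `D` with initial piece `η`. -/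
noncomputable def S (G : Grid) (D : ℤ × ℤ → Prop) {k m : ℕ}
    (φ : (Fin (k + 1) → ℤ × ℤ) → (Fin (m + 1) → ℤ × ℤ) → ℝ) (n : ℕ) : ℝ :=
  ∑ᶠ γ ∈ walks G D n, φ (fun i => γ ⟨min i n, by omega⟩) (fun j => γ ⟨n - j, by omega⟩)

/-- `cos (arg (z ^ s))` for `z ≠ 0` -/
noncomputable def cosArg (s : ℕ) (z : ℂ) : ℝ := (z ^ s).re / ‖z‖ ^ s

/-- The domain `|z| < (1 + δ (1 - cos (arg (z ^ s)))) / μ`: the disc `|z| < 1/μ` enlarged at all
points of the circle `|z| = 1/μ` at which `z ^ s` is not positive. -/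
def Dom (μ δ : ℝ) (s : ℕ) : Set ℂ := {z | μ * ‖z‖ < 1 + δ * (1 - cosArg s z)}

/-- Analytic continuation for the walks in `D`: the generating functions of all sums `S` extend to the
domain `Dom μ δ G.s`, for the functions `φ` of the initial piece and the final piece with at most
polynomial growth in the end point. -/
def Continues (G : Grid) (D : ℤ × ℤ → Prop) (μ δ : ℝ) : Prop :=
  ∀ (k m p : ℕ) (B : ℝ) (φ : (Fin (k + 1) → ℤ × ℤ) → (Fin (m + 1) → ℤ × ℤ) → ℝ),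
    (∀ a b, |φ a b| ≤ B * (1 + |((b 0).1 : ℝ)| + |((b 0).2 : ℝ)|) ^ p) →
    ∃ F : ℂ → ℂ, DifferentiableOn ℂ F (Dom μ δ G.s) ∧
      ∀ z : ℂ, μ * ‖z‖ < 1 → HasSum (fun n => (S G D φ n : ℂ) * z ^ n) (F z)

/-! ### transfer from the library -/

open Pool.Agent.R965.HP TH966.AK Pool.Agent.N929.EG Pool.Agent.N929.AC Pool.Agent.U198.AC

theorem growth {A : ℤ × ℤ → ℤ × ℤ → Prop} (Z : Rule A) {m p : ℕ} {B : ℝ}
    {b : Fin (m + 1) → ℤ × ℤ} {n : ℕ} {γ : Fin (n + 1) → ℤ × ℤ} (hγ : γ ∈ wks A n)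
    (hb : b 0 = γ (Fin.last n)) :
    B * (1 + |((b 0).1 : ℝ)| + |((b 0).2 : ℝ)|) ^ p ≤ |B| * 2 ^ p * ((n : ℝ) + 1) ^ p := by
  have hw : List.ofFn γ ∈ Kw A n := by
    have h1 : List.ofFn γ ∈ (Kw A n : Set (List (ℤ × ℤ))) := by
      rw [← image_wks Z]
      exact ⟨γ, hγ, rfl⟩
    exact h1
  have hl := TH966.AK.lst_le Z hw
  rw [lst_ofFn] at hl
  rw [hb]
  have l1 : |((γ (Fin.last n)).1 : ℝ)| ≤ n := by exact_mod_cast hl.1
  have l2 : |((γ (Fin.last n)).2 : ℝ)| ≤ n := by exact_mod_cast hl.2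
  rw [mul_assoc, ← mul_pow]
  refine mul_le_mul (le_abs_self B) ?_ (by positivity) (abs_nonneg _)
  exact pow_le_pow_left₀ (by positivity) (by linarith) p

theorem last_eq {m n : ℕ} (γ : Fin (n + 1) → ℤ × ℤ) :
    γ ⟨n - ((0 : Fin (m + 1)) : ℕ), by omega⟩ = γ (Fin.last n) := by
  congr 1

/-- one domain -/
theorem cont_of (G : Grid) (D : ℤ × ℤ → Prop) (h0 : D 0)
    {A : ℤ × ℤ → ℤ × ℤ → Prop}
    (e : G.Adj = A) (Z : Rule A) (hs : Z.s = G.s) {μ : ℝ} {a : ℕ} (ha : 1 ≤ a)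
    (H : ∃ K : ℝ, Gr (ruleD Z D).sys μ K a) : 1 ≤ μ ∧ ∃ δ : ℝ, 0 < δ ∧ Continues G D μ δ := by
  subst e
  obtain ⟨K, H⟩ := H
  have hw : ∀ n, walks G D n = Wk G.Adj D n := fun n => rfl
  have hw' : ∀ n, walks G D n = wks (AD G.Adj D) n := fun n => by rw [hw, Wk_eq h0]
  have hz : (ruleD Z D).s = G.s := hs
  obtain ⟨hμ, c, hc, h⟩ := en_dom H ha
  refine ⟨hμ, c, hc, fun k m p B φ hφ => ?_⟩
  obtain ⟨f, h1, h2⟩ := h k m p (|B| * 2 ^ p) (ofL φ) (fun n w hw => by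
    have hw2 : w ∈ (Kw (AD G.Adj D) n : Set (List (ℤ × ℤ))) := hw
    rw [← image_wks (ruleD Z D)] at hw2
    obtain ⟨γ, hγ, rfl⟩ := hw2
    rw [ofL_ofFn]
    have hb := growth (ruleD Z D) (p := p) (B := B)
      (b := fun j : Fin (m + 1) => γ ⟨n - (j : ℕ), by omega⟩) hγ (last_eq γ)
    exact (hφ _ _).trans hb)
  rw [hz] at h1
  refine ⟨f, h1, fun z hz' => ?_⟩
  have h3 := h2 z hz'
  refine (congrArg (fun g => HasSum g (f z)) ?_).mp h3
  funext n
  congr 2
  unfold S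
  rw [hw']
  exact (sum_list (ruleD Z D) n _ _ fun γ => (ofL_ofFn φ γ).symm).symm

/-- all domains -/
theorem all_of (L : H982.Lat) (G : Grid) {A : ℤ × ℤ → ℤ × ℤ → Prop}
    (e : G.Adj = A) (Z : Rule A) (hs : Z.s = G.s) (hs1 : 1 ≤ Z.s)
    {ψ : ℤ × ℤ → ℤ × ℤ} {R : ℕ → ℤ × ℤ → Prop} (H : @H982.Coord L A ψ R)
    (hcl : ∀ D : ℤ × ℤ → Prop, ∀ U U', Z.T U U' → (∀ x ∈ U', D x) → ∀ x ∈ U, D x)
    (hp : ∃ (M0 : ℕ) (ρ C0 : ℝ), 1 ≤ M0 ∧ 0 ≤ ρ ∧ ρ < @H982.mu L ∧ ∀ n : ℕ,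
      (((Kw A n).filter (fun w => M0 * (Z.B w).card ≤ n)).card : ℝ) ≤ C0 * ρ ^ n) :
    1 ≤ @H982.mu L ∧ ∃ δ : ℝ, 0 < δ ∧ ∀ D, Continues G D (@H982.mu L) δ := by
  subst e
  obtain ⟨hμ, c, hc, h⟩ := mx_plane L Z hs1 H hcl hp
  refine ⟨hμ, c, hc, fun D k m p B φ hφ => ?_⟩
  have hle : ∀ (n : ℕ) (γ : Fin (n + 1) → ℤ × ℤ),
      (⨆ j, (if D (γ j) then (0 : ℝ) else 1)) ≤ 0 ↔ ∀ j, D (γ j) := by
    intro n γ
    rw [ciSup_le_iff (Set.finite_range _).bddAbove]
    refine forall_congr' fun j => ?_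
    split_ifs with h
    · exact ⟨fun _ => h, fun _ => le_rfl⟩
    · exact ⟨fun h1 => absurd h1 (by norm_num), fun h1 => absurd h1 h⟩
  obtain ⟨F, h1, h2⟩ := h k m 1 p (|B| * 2 ^ p) (fun _ x => if D x then 0 else 1)
    (fun v a b => if v 0 ≤ 0 then φ a b else 0) (fun n γ hγ => by
      have hb := growth Z (p := p) (B := B)
        (b := fun j : Fin (m + 1) => γ ⟨n - (j : ℕ), by omega⟩) hγ (last_eq γ)
      split_ifs with h3
      · exact (hφ _ _).trans hb
      · rw [abs_zero]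
        positivity)
  rw [hs] at h1
  refine ⟨F, h1, fun z hz => ?_⟩
  refine (congrArg (fun g => HasSum g (F z)) ?_).mp (h2 z hz)
  funext n
  congr 2
  unfold S
  rw [finsum_mem_def, finsum_mem_def]
  congr 1
  funext γ
  have hm : γ ∈ walks G D n ↔ γ ∈ wks G.Adj n ∧ ∀ j, D (γ j) := by
    constructor
    · rintro ⟨g1, g2, g3, g4⟩
      exact ⟨⟨g1, g2, g3⟩, g4⟩
    · rintro ⟨⟨g1, g2, g3⟩, g4⟩
      exact ⟨g1, g2, g3, g4⟩
  by_cases h3 : γ ∈ wks G.Adj n
  · rw [Set.indicator_of_mem h3]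
    by_cases h4 : ∀ j, D (γ j)
    · rw [Set.indicator_of_mem (hm.2 ⟨h3, h4⟩), if_pos ((hle n γ).2 h4)]
    · rw [Set.indicator_of_notMem fun h => h4 (hm.1 h).2, if_neg fun h => h4 ((hle n γ).1 h)]
  · rw [Set.indicator_of_notMem h3, Set.indicator_of_notMem fun h => h3 (hm.1 h).1]

theorem root_of (L : H982.Lat) (G : Grid) {A : ℤ × ℤ → ℤ × ℤ → Prop}
    (e : G.Adj = A) (Z : Rule A) {φ : ℤ × ℤ → ℤ × ℤ} {R : ℕ → ℤ × ℤ → Prop}
    (H : @H982.Coord L A φ R) :
    Tendsto (fun n : ℕ => ((walks G (fun _ => True) n).ncard : ℝ) ^ (1 / (n : ℝ))) atTop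
      (𝓝 (@H982.mu L)) := by
  have h1 := @H982.tendsto_root L
  refine h1.congr fun n => ?_
  have h2 : ((walks G (fun _ => True) n).ncard : ℝ) = @H982.cr' L n := by
    subst e
    have h3 : ((walks G (fun _ => True) n).ncard : ℝ) =
        ((Kw (AD G.Adj (fun _ => True)) n).card : ℝ) := by
      show ((Wk G.Adj (fun _ => True) n).ncard : ℝ) = _
      rw [ncard_Wk Z trivial]
      rfl
    rw [h3, ← card_full Z H n]
    have e2 : AD G.Adj (fun _ => True) = G.Adj := by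
      funext p q
      unfold AD
      simp
    rw [e2]
  rw [h2]

theorem half_hexagonal : Grid.hexagonal.Half = fun p => 0 ≤ p.1 := by
  funext p
  show ((0 : ℝ) ≤ √3 / 2 * (p.1 : ℝ)) = _
  have h3 : (0 : ℝ) < √3 / 2 := by positivity
  rw [eq_iff_iff, mul_nonneg_iff_of_pos_left h3]
  exact ⟨fun h => by exact_mod_cast h, fun h => by exact_mod_cast h⟩

/-- **Theorem.** For each of the three grids let `μ` be the connective constant, and `s = 2` for the
square and the hexagonal grid, `s = 1` for the triangular grid. There is a connected open set which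
contains the disc `|z| < 1/μ` and all points of the circle `|z| = 1/μ` at which `z^s` is not positive,
to which the following generating functions extend holomorphically:
(1) those of the sums over the walks in the closed upper half-plane of all functions of the initial
piece and the final piece (with polynomial growth in the end point);
(2) for the square and the triangular grid, the same for the walks in an arbitrary set `D` of
vertices (wedges, slit planes, complements of arbitrary sets, …), with one domain for all `D`. -/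
theorem result : ∀ G : Grid, ∃ μ : ℝ, 0 < μ ∧
    Tendsto (fun n : ℕ => ((walks G (fun _ => True) n).ncard : ℝ) ^ (1 / (n : ℝ))) atTop (𝓝 μ) ∧
    ∃ δ : ℝ, 0 < δ ∧
    (IsOpen (Dom μ δ G.s) ∧ IsPreconnected (Dom μ δ G.s) ∧
      (∀ z : ℂ, μ * ‖z‖ < 1 → z ∈ Dom μ δ G.s) ∧
      ∀ z : ℂ, μ * ‖z‖ = 1 → z ^ G.s ≠ (‖z‖ : ℂ) ^ G.s → z ∈ Dom μ δ G.s) ∧
    Continues G G.Half μ δ ∧
    (G ≠ .hexagonal → ∀ D : ℤ × ℤ → Prop, Continues G D μ δ) := by
  have esq : Grid.square.Adj = Pool.Agent.R965.HP.Sq.A := rfl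
  have etri : Grid.triangular.Adj = TH966.AK.Tri.A := TH966.AK.adjT_eq
  have ehex : Grid.hexagonal.Adj = TH966.AK.Hex.A := rfl
  obtain ⟨φ, R, htri, -⟩ := Pool.Agent.R965.HP.coord_triA
  intro G
  cases G with
  | square =>
    obtain ⟨hμ, δ, hδ, h⟩ := all_of H982P.sqL .square esq Pool.Agent.R965.HP.Sq.rule rfl
      (show 1 ≤ 2 by norm_num) H982P.coord_sq Pool.Agent.R965.HP.sq_cl Pool.Agent.R965.HP.sq_poor
    exact ⟨@H982.mu H982P.sqL, @H982.mu_pos H982P.sqL,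
      root_of H982P.sqL .square esq Pool.Agent.R965.HP.Sq.rule H982P.coord_sq, δ, hδ,
      dom_facts hδ hμ (show 1 ≤ 2 by norm_num), h _, fun _ => h⟩
  | triangular =>
    obtain ⟨hμ, δ, hδ, h⟩ := all_of H982P.triL .triangular etri TH966.AK.Tri.rule rfl
      (show 1 ≤ 1 by norm_num) htri Pool.Agent.R965.HP.tri_cl Pool.Agent.R965.HP.tri_poor
    exact ⟨@H982.mu H982P.triL, @H982.mu_pos H982P.triL,
      root_of H982P.triL .triangular etri TH966.AK.Tri.rule htri, δ, hδ,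
      dom_facts hδ hμ (show 1 ≤ 1 by norm_num), h _, fun _ => h⟩
  | hexagonal =>
    have h2 := cont_of .hexagonal (fun p => 0 ≤ p.1) (show (0 : ℤ) ≤ 0 from le_rfl) ehex
      TH966.AK.Hex.rule rfl one_le_two Pool.Agent.R965.HP.half_hex
    rw [← half_hexagonal] at h2
    obtain ⟨hμ, δ, hδ, h⟩ := h2
    refine ⟨Real.sqrt (2 + Real.sqrt 2), by positivity, ?_, δ, hδ,
      dom_facts hδ hμ (show 1 ≤ 2 by norm_num), h, fun h => absurd rfl h⟩
    have h1 := root_of H982P.hexL .hexagonal ehex TH966.AK.Hex.rule H982P.coord_hex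
    rw [Pool.Agent.H976R3.HPL.mu_hex] at h1
    exact h1

end Pool.Agent.Results.MP_df1d0b_pr.PiecesContinuation
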